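import Mathlib
import Pool.Agent.Q188.RV.Rts

/-!
# Heights relative to any field, in particular `ℚ(Γ_div)`, and zeros in local fields

Let `B` be any field of complex numbers, for instance `B = ℚ(Γ_div)` for any subgroup `Γ` of `ℂ*`.
Let `α` be an algebraic number, `h` its height and `D` its degree over `B`, so `D = D_Γ(α)` for
`B = ℚ(Γ_div)`. There is a number field `k ⊆ B` over which `α` has the same degree `D`. Let `k` be
any such field, `g` the minimal polynomial of `α` over `k` (and over `B`).

Let `K_i` be finitely many (or no) nonarchimedean local fields of characteristic zero over distinct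
primes `p_i`, with ramification index `e_i` and residue field with `q_i` elements. For each
embedding `τ` of `k` in an algebraic closure of `K_i` let `r_τ` be the number of the zeros of the
conjugate polynomial `g^τ` in `K_i`, and let `A_i` be the mean of `r_τ` and `S_i` the mean of
`r_τ ^ 2` over the `[k : ℚ]` embeddings `τ`. Let `A_0` and `S_0` be the means of the numbers of the
real zeros of the conjugate polynomials `g^τ`, `τ` an embedding of `k` in `ℂ`, and of their squares.
Put `X = ∑ (log p_i / (e_i q_i)) S_i + S_0 / (6 log (2 D + 2))`. Then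

* `∑ (log p_i / (e_i q_i)) (S_i - 4 (q_i + 1) A_i) + S_0 / (12 log (2 D + 2))
    ≤ 2 D log D + 14 A_0 + 9 D ^ 2 h`;
* if `S_i ≥ 8 (q_i + 1) A_i` and `X ≥ 8 (D log D + 7 A_0)`, then `h ≥ X / (36 D ^ 2)`, and
  `D h ≥ (2 / 9) log D`.

So Rémond's inequality holds, with a logarithm to spare and with an absolute constant, for all
groups `Γ` and all `α` such that the mean over the embeddings `τ` of `k` of the square of the number
of the zeros of `g^τ` in one local field is at least about `D log D` (in its last form for real
zeros: `D (log D) ^ 2`), where `D = D_Γ(α)`. For instance it is enough that, for a proportion of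
about `(log D) / D` of the embeddings `τ`, all the zeros of `g^τ` are in the local field. The degree
and the discriminant of `k` and the size of the coefficients of `g` do not matter.

The method: the norm from `k` to `ℚ` of the discriminant of `g` is the square of a product of
Vandermonde determinants, one for each embedding of `k`. Expanding the rows of the zeros in `K_i`
in all of them at the same time along Newton polynomials adapted to the residue classes of `K_i`
shows that the norm is divisible by a high power of `p_i`, and replacing the rows of the real zeros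
by divided differences on small intervals saves a power of two.
-/

set_option autoImplicit false

open Polynomial Module NumberField ValuativeRel

universe v

namespace Pool.Agent.Results.MP_f61260_nt.RelativeLocalConjugates

/-- A nonarchimedean local field `K` of characteristic zero (in the sense of Mathlib) with the
prime number `p` below it and its ramification index `e`, so `p 𝒪 = 𝔪 ^ e`. -/
structure Place : Type 1 where
  p : ℕ
  hp : p.Prime
  K : Type
  [fld : Field K]
  [val : ValuativeRel K]
  [top : TopologicalSpace K]
  [loc : IsNonarchimedeanLocalField K]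
  [char0 : CharZero K]
  e : ℕ
  he : 1 ≤ e
  ram : Ideal.span {((p : ℕ) : 𝒪[K])} = 𝓂[K] ^ e

attribute [instance] Place.fld Place.val Place.top Place.loc Place.char0

/-- the number of elements of the residue field -/
noncomputable def Place.q (P : Place) : ℕ := Nat.card 𝓀[P.K]

/-- the absolute logarithmic Weil height of a zero of the irreducible polynomial `f` with integer
coefficients -/
noncomputable def height (f : ℤ[X]) : ℝ :=
  Real.log (f.map (Int.castRingHom ℂ)).mahlerMeasure / f.natDegree

/-- the number of the zeros in the local field of the conjugate, by the embedding `τ` of `k`, of the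
minimal polynomial of `α` over `k` -/
noncomputable def zerosIn (k : IntermediateField ℚ ℂ) (α : ℂ) (P : Place)
    (τ : k →+* AlgebraicClosure P.K) : ℕ :=
  {y : P.K | (minpoly k α).eval₂ τ (algebraMap P.K (AlgebraicClosure P.K) y) = 0}.ncard

/-- the number of the real zeros of the conjugate, by the embedding `τ` of `k`, of the minimal
polynomial of `α` over `k` -/
noncomputable def realZeros (k : IntermediateField ℚ ℂ) (α : ℂ) (τ : k →+* ℂ) : ℕ :=
  {t : ℝ | (minpoly k α).eval₂ τ (t : ℂ) = 0}.ncard

/-- the mean over the embeddings of `k` of the `j`-th power of the number of the zeros in the local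
field -/
noncomputable def mean (k : IntermediateField ℚ ℂ) [NumberField k] (α : ℂ) (P : Place) (j : ℕ) :
    ℝ :=
  (∑ τ : k →+* AlgebraicClosure P.K, (zerosIn k α P τ : ℝ) ^ j) / finrank ℚ k

/-- the mean over the embeddings of `k` of the `j`-th power of the number of the real zeros -/
noncomputable def realMean (k : IntermediateField ℚ ℂ) [NumberField k] (α : ℂ) (j : ℕ) : ℝ :=
  (∑ τ : k →+* ℂ, (realZeros k α τ : ℝ) ^ j) / finrank ℚ k

/-- the sum `X` -/
noncomputable def locSum (k : IntermediateField ℚ ℂ) [NumberField k] (α : ℂ) {ι : Type v}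
    [Fintype ι] (P : ι → Place) (D : ℝ) : ℝ :=
  ∑ i, Real.log (P i).p / ((P i).e * (P i).q) * mean k α (P i) 2 +
    realMean k α 2 / (6 * Real.log (2 * D + 2))

/-- the sum on the left of the first inequality -/
noncomputable def gainSum (k : IntermediateField ℚ ℂ) [NumberField k] (α : ℂ) {ι : Type v}
    [Fintype ι] (P : ι → Place) (D : ℝ) : ℝ :=
  ∑ i, Real.log (P i).p / ((P i).e * (P i).q) *
    (mean k α (P i) 2 - 4 * ((P i).q + 1) * mean k α (P i) 1) +
    realMean k α 2 / (12 * Real.log (2 * D + 2))

/-- the hypotheses of the second part: `S_i ≥ 8 (q_i + 1) A_i` and `X ≥ 8 (D log D + 7 A_0)` -/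
def ManyZeros (k : IntermediateField ℚ ℂ) [NumberField k] (α : ℂ) {ι : Type v}
    [Fintype ι] (P : ι → Place) (D : ℝ) : Prop :=
  (∀ i, 8 * ((P i).q + 1) * mean k α (P i) 1 ≤ mean k α (P i) 2) ∧
    8 * (D * Real.log D + 7 * realMean k α 1) ≤ locSum k α P D

/-- the number field `k` is contained in `B`, and `α` has the same degree over `k` and over `B` -/
def SameDegree (B k : IntermediateField ℚ ℂ) (α : ℂ) : Prop :=
  k ≤ B ∧ (minpoly k α).natDegree = (minpoly B α).natDegree

/-- The field `ℚ(Γ_div)` generated by the division group of `Γ`. -/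
noncomputable def divField (Γ : Subgroup ℂˣ) : IntermediateField ℚ ℂ :=
  IntermediateField.adjoin ℚ {z : ℂ | z ≠ 0 ∧ ∃ n : ℕ, 1 ≤ n ∧ ∃ g ∈ Γ, (g : ℂ) = z ^ n}

/-- the place as a structure of the helper files -/
noncomputable def Place.cv (P : Place) : Pool.Agent.Y642.LZ.Place.{0} :=
  { p := P.p, hp := P.hp, K := P.K, e := P.e, he := P.he, ram := P.ram }

lemma first {B k : IntermediateField ℚ ℂ} [NumberField k] {α : ℂ} (hα : IsAlgebraic ℚ α)
    {f : ℤ[X]} (hf : Irreducible f) (hx : aeval α f = 0) (hk : SameDegree B k α)
    {ι : Type v} [Fintype ι] (P : ι → Place) (hinj : Function.Injective fun i => (P i).p) {D : ℝ}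
    (hD : D = (minpoly B α).natDegree) :
    gainSum k α P D ≤ 2 * (D * Real.log D) + 14 * realMean k α 1 + 9 * D ^ 2 * height f := by
  have hinj' : Set.InjOn (fun i => (P i).cv.p) (Finset.univ : Finset ι) := fun i _ j _ h =>
    hinj h
  have h1 := Pool.Agent.Q188.RV.one_k k hα hf hx Finset.univ (fun i => (P i).cv) hinj'
    (r := fun i τ => zerosIn k α (P i) τ) (r0 := fun τ => realZeros k α τ) (fun i τ => rfl)
    (fun τ => rfl) (D := D) (by rw [hD, ← hk.2])
  unfold gainSum mean realMean
  simp only [pow_one]
  exact h1

lemma second {B k : IntermediateField ℚ ℂ} [NumberField k] {α : ℂ} (hα : IsAlgebraic ℚ α)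
    {f : ℤ[X]} (hf : Irreducible f) (hx : aeval α f = 0) (hk : SameDegree B k α)
    {ι : Type v} [Fintype ι] (P : ι → Place) (hinj : Function.Injective fun i => (P i).p) {D : ℝ}
    (hD : D = (minpoly B α).natDegree) (hM : ManyZeros k α P D) :
    locSum k α P D ≤ 36 * D ^ 2 * height f ∧ 2 / 9 * Real.log D ≤ D * height f := by
  have h1 := first hα hf hx hk P hinj hD
  obtain ⟨h2, h3⟩ := hM
  have hαB : IsIntegral B α := hα.isIntegral.tower_top
  have hD1 : 1 ≤ D := by
    rw [hD]
    exact_mod_cast minpoly.natDegree_pos hαB
  have hA0 : 0 ≤ realMean k α 1 := by unfold realMean; positivity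
  have h4 : ∑ i, Real.log (P i).p / ((P i).e * (P i).q) * mean k α (P i) 2 / 2 ≤
      ∑ i, Real.log (P i).p / ((P i).e * (P i).q) *
        (mean k α (P i) 2 - 4 * ((P i).q + 1) * mean k α (P i) 1) := by
    refine Finset.sum_le_sum fun i _ => ?_
    rw [mul_div_assoc]
    refine mul_le_mul_of_nonneg_left ?_ ?_
    · have := h2 i
      linarith
    · have : 0 ≤ Real.log (P i).p := Real.log_natCast_nonneg _
      positivity
  rw [← Finset.sum_div] at h4
  have h5 : realMean k α 2 / (6 * Real.log (2 * D + 2)) / 2 =
      realMean k α 2 / (12 * Real.log (2 * D + 2)) := by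
    rw [div_div]
    ring
  have h6 : locSum k α P D / 2 ≤
      2 * (D * Real.log D) + 14 * realMean k α 1 + 9 * D ^ 2 * height f := by
    refine le_trans ?_ h1
    unfold locSum gainSum
    rw [add_div, h5]
    linarith
  have h7 : locSum k α P D ≤ 36 * D ^ 2 * height f := by linarith
  refine ⟨h7, ?_⟩
  have h8 : 8 * (D * Real.log D) ≤ 36 * D ^ 2 * height f := by linarith
  have h9 : 36 * D * (2 / 9 * Real.log D) ≤ 36 * D * (D * height f) := by
    have h10 : 36 * D * (2 / 9 * Real.log D) = 8 * (D * Real.log D) := by ring
    have h11 : 36 * D * (D * height f) = 36 * D ^ 2 * height f := by ring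
    rw [h10, h11]
    exact h8
  exact le_of_mul_le_mul_left h9 (by positivity)

/-- **Heights relative to any field, in particular `ℚ(Γ_div)`, and zeros in local fields.** -/
theorem result :
    (∀ (B : IntermediateField ℚ ℂ) (α : ℂ), IsAlgebraic ℚ α → ∀ D : ℝ,
      D = (minpoly B α).natDegree →
      (∃ k : IntermediateField ℚ ℂ, NumberField k ∧ SameDegree B k α) ∧
      ∀ f : ℤ[X], Irreducible f → aeval α f = 0 →
      ∀ (k : IntermediateField ℚ ℂ) [NumberField k], SameDegree B k α →
      ∀ (ι : Type v) [Fintype ι] (P : ι → Place), (Function.Injective fun i => (P i).p) →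
        gainSum k α P D ≤ 2 * (D * Real.log D) + 14 * realMean k α 1 + 9 * D ^ 2 * height f ∧
        (ManyZeros k α P D →
          locSum k α P D ≤ 36 * D ^ 2 * height f ∧ 2 / 9 * Real.log D ≤ D * height f)) ∧
    ∀ (Γ : Subgroup ℂˣ) (α : ℂ), IsAlgebraic ℚ α → ∀ f : ℤ[X], Irreducible f → aeval α f = 0 →
      ∀ D : ℝ, D = (minpoly (divField Γ) α).natDegree →
      ∀ (k : IntermediateField ℚ ℂ) [NumberField k], SameDegree (divField Γ) k α →
      ∀ (ι : Type v) [Fintype ι] (P : ι → Place), (Function.Injective fun i => (P i).p) →
        ManyZeros k α P D → 2 / 9 * Real.log D / D ≤ height f := by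
  refine ⟨fun B α hα D hD => ⟨?_, fun f hf hx k _ hk ι _ P hinj => ⟨?_, fun hM => ?_⟩⟩, ?_⟩
  · obtain ⟨k, h1, h2, h3⟩ := Pool.Agent.Q188.RV.exists_k1 B hα
    exact ⟨k, h1, h2, h3⟩
  · exact first hα hf hx hk P hinj hD
  · exact second hα hf hx hk P hinj hD hM
  · intro Γ α hα f hf hx D hD k _ hk ι _ P hinj hM
    have hαB : IsIntegral (divField Γ) α := hα.isIntegral.tower_top
    have hD1 : 1 ≤ D := by
      rw [hD]
      exact_mod_cast minpoly.natDegree_pos hαB
    rw [div_le_iff₀ (by linarith), mul_comm (height f)]
    exact (second hα hf hx hk P hinj hD hM).2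

end Pool.Agent.Results.MP_f61260_nt.RelativeLocalConjugates
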